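import Pool.Agent.Run7.h322.Fin

/-!
# A division algebra of degree eight without `2`-central elements

There are a field `F` containing `ℂ` and a division algebra `D` with centre exactly `F`, of
degree `8 = 2 * 4` over `F`, such that no element `x` of `D` outside `F` has its square in `F`.
This is the negated form of Q1 with `p = 2` and `m = 4`.

Sketch of the proof (files `Pool/Agent/Run7/h322/*.lean`). Let `G = (ℤ/2)³`, let `Ω` be the field
of rational functions over `ℂ` in the entries `z_{h,h'}` of a generic `G × G` matrix, and let the
pairs `(t, π)`, with `t : G → ℤ/4` and `π` a permutation of `G`, act by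
`z_{h,h'} ↦ i^{t h - t h'} z_{π h, π h'}`. `F` is the fixed field and `D` is the algebra of all
`G × G` matrices `A` over `Ω` with `(t, π) A_{h,h'} = i^{t h - t h'} A_{π h, π h'}`. A linear change
of variables makes an abelian group of pairs (a symbol algebra of degree four tensored with a
quaternion algebra) act diagonally, so that each coefficient matrix of an equivariant polynomial
matrix `N` is a monomial matrix of a fixed pattern. If `N²` is scalar, then the coefficient
matrices at the vertices of the Newton polytope have scalar squares; a walk along the polytope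
shows that these vertices all have the same colour in `(ℤ/2)⁴` in the sense of being all zero or
all nonzero, and an element of order seven of `GL₃(𝔽₂)`, acting by permutations, forces a vertex
whose coefficient matrix is scalar, which makes `N` scalar.
-/

namespace Pool.Agent.Results.MP_9e990c_al.NoTwoCentral

theorem result :
    ∃ (F : Type) (_ : Field F) (_ : Algebra ℂ F) (D : Type) (_ : DivisionRing D)
      (_ : Algebra F D),
      (∃ ζ : F, IsPrimitiveRoot ζ 2) ∧
      Module.Finite F D ∧
      Subalgebra.center F D = ⊥ ∧
      Module.finrank F D = (2 * 4) ^ 2 ∧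
      ¬ ∃ x : D, x ∉ Set.range (algebraMap F D) ∧ x ^ 2 ∈ Set.range (algebraMap F D) := by
  obtain ⟨F, hF, hCF, D, hD, hFD, h1, h2, h3, h4⟩ := Run7.h322.final
  refine ⟨F, hF, hCF, D, hD, hFD, ?_, h1, h2, by rw [h3], ?_⟩
  · have hζ : IsPrimitiveRoot (-1 : ℂ) 2 := IsPrimitiveRoot.neg_one 0 (by norm_num)
    exact ⟨algebraMap ℂ F (-1), hζ.map_of_injective (algebraMap ℂ F).injective⟩
  · rintro ⟨x, hx, hx2⟩
    exact hx (h4 x hx2)

end Pool.Agent.Results.MP_9e990c_al.NoTwoCentral
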